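import Mathlib

namespace Pool.Agent.Results.MP_9149b8_co.Strict

open Finset

/-- Worst-case coherence: largest `|⟨f_i, f_j⟩|` over `i ≠ j`. -/
noncomputable def coh {N M : ℕ} (F : Fin N → Fin M → ℝ) : ℝ :=
  ⨆ p : {p : Fin N × Fin N // p.1 ≠ p.2}, |F p.1.1 ⬝ᵥ F p.1.2|

/-- Optimal coherence of `N` unit vectors in `ℝ^M`. -/
noncomputable def mu (N M : ℕ) : ℝ :=
  sInf {c | ∃ F : Fin N → Fin M → ℝ, (∀ i, F i ⬝ᵥ F i = 1) ∧ c = coh F}

theorem le_coh {N M : ℕ} (F : Fin N → Fin M → ℝ) {i j : Fin N} (h : i ≠ j) :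
    |F i ⬝ᵥ F j| ≤ coh F :=
  le_ciSup (f := fun p : {p : Fin N × Fin N // p.1 ≠ p.2} => |F p.1.1 ⬝ᵥ F p.1.2|)
    (Finite.bddAbove_range _) ⟨(i, j), h⟩

theorem coh_nn {N M : ℕ} (F : Fin N → Fin M → ℝ) : 0 ≤ coh F :=
  Real.iSup_nonneg fun _ => abs_nonneg _

theorem lower {N M : ℕ} (h : M < N) (F : Fin N → Fin M → ℝ) (hF : ∀ i, F i ⬝ᵥ F i = 1) :
    1 / (N : ℝ) ≤ coh F := by
  have : ¬ LinearIndependent ℝ F := fun hl => by
    have := hl.fintype_card_le_finrank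
    simp at this; omega
  obtain ⟨g, hg, k, hk⟩ := Fintype.not_linearIndependent_iff.1 this
  obtain ⟨i, -, hi⟩ := exists_max_image univ (fun i => |g i|) ⟨k, mem_univ k⟩
  have p : 0 < |g i| := (abs_pos.2 hk).trans_le (hi k (mem_univ k))
  have e : g i = -∑ j ∈ univ.erase i, g j * (F i ⬝ᵥ F j) := by
    have := congrArg (F i ⬝ᵥ ·) hg
    simp only [dotProduct_sum, dotProduct_smul, smul_eq_mul, dotProduct_zero] at this
    rw [← add_sum_erase _ _ (mem_univ i), hF] at this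
    linarith
  have b : |g i| ≤ N * (|g i| * coh F) := by
    calc |g i| = |∑ j ∈ univ.erase i, g j * (F i ⬝ᵥ F j)| := (congrArg abs e).trans (abs_neg _)
      _ ≤ ∑ j ∈ univ.erase i, |g j * (F i ⬝ᵥ F j)| := abs_sum_le_sum_abs _ _
      _ ≤ ∑ j ∈ univ.erase i, |g i| * coh F := sum_le_sum fun j hj => by
        rw [abs_mul]
        exact mul_le_mul (hi j (mem_univ j)) (le_coh F (mem_erase.1 hj).1.symm) (abs_nonneg _) p.le
      _ ≤ ∑ j, |g i| * coh F := sum_le_sum_of_subset_of_nonneg (subset_univ _) fun _ _ _ =>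
        mul_nonneg p.le (coh_nn F)
      _ = _ := by simp
  have hN : (0 : ℝ) < N := by exact_mod_cast (Nat.zero_le M).trans_lt h
  rw [div_le_iff₀ hN]
  nlinarith

theorem key {g m a b t d : ℝ} (hg : |g| ≤ m) (hb : 0 ≤ b) (hba : b ≤ t * a) (ha : 0 ≤ a)
    (ha1 : a ≤ 1) (ht : 0 ≤ t) (hm : 3 * t ≤ m) (hd : d ≤ a ^ 2) (hd0 : 0 ≤ d) :
    |a * b + g| ≤ (1 - d / 18) * m * (√(1 + a ^ 2) * √(1 + b ^ 2)) := by
  have a2 : a ^ 2 ≤ 1 := by nlinarith
  have m0 : 0 ≤ m := by linarith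
  have s2 : 1 ≤ √(1 + b ^ 2) := Real.one_le_sqrt.2 (by nlinarith)
  have s1 := Real.sq_sqrt (show 0 ≤ 1 + a ^ 2 by positivity)
  have r0 : 0 ≤ (1 - d / 18) * m * √(1 + a ^ 2) :=
    mul_nonneg (mul_nonneg (by linarith) m0) (Real.sqrt_nonneg _)
  have h1 : |a * b + g| ≤ m * (1 + a ^ 2 / 3) := by
    refine (abs_add_le _ _).trans ?_
    rw [abs_of_nonneg (mul_nonneg ha hb)]
    nlinarith [mul_le_mul_of_nonneg_left hba ha, mul_le_mul_of_nonneg_right hm (sq_nonneg a)]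
  have h2 : 1 + a ^ 2 / 3 ≤ (1 - d / 18) * √(1 + a ^ 2) := by
    refine abs_le_of_sq_le_sq' ?_ (mul_nonneg (by linarith) (Real.sqrt_nonneg _)) |>.2
    rw [mul_pow, s1]
    nlinarith [sq_nonneg a, sq_nonneg d, mul_nonneg (sq_nonneg d) (sq_nonneg a),
      mul_le_mul_of_nonneg_right hd (sq_nonneg a), mul_le_mul_of_nonneg_right a2 (sq_nonneg a)]
  nlinarith [mul_le_mul_of_nonneg_left h2 m0, mul_le_mul_of_nonneg_left s2 r0]

theorem result (N M : ℕ) (hN : 2 ≤ N) (h1 : 1 ≤ M) (h2 : M ≤ N - 1) : mu N (M + 1) < mu N M := by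
  have hM : M < N := by omega
  have hN' : (2 : ℝ) ≤ N := by exact_mod_cast hN
  set t : ℝ := 1 / N / 3 with ht
  have t0 : 0 < t := by positivity
  have t1 : t ≤ 1 := by rw [ht, div_div, div_le_one (by positivity)]; linarith
  set d := (t ^ N) ^ 2 with hd
  have d0 : 0 < d := by positivity
  have d1 : d ≤ 1 := pow_le_one₀ (by positivity) (pow_le_one₀ t0.le t1)
  have ne : {c | ∃ F : Fin N → Fin M → ℝ, (∀ i, F i ⬝ᵥ F i = 1) ∧ c = coh F}.Nonempty :=
    ⟨_, fun _ => Pi.single ⟨0, h1⟩ 1, fun _ => by simp, rfl⟩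
  have lo : 1 / (N : ℝ) ≤ mu N M := le_csInf ne (by rintro _ ⟨F, hF, rfl⟩; exact lower hM F hF)
  have up : mu N (M + 1) / (1 - d / 18) ≤ mu N M := by
    refine le_csInf ne ?_
    rintro _ ⟨F, hF, rfl⟩
    have l := lower hM F hF
    let s : Fin N → ℝ := fun i => √(1 + (t ^ i.1) ^ 2)
    have s0 : ∀ i, 0 < s i := fun i => Real.sqrt_pos.2 (by positivity)
    let G : Fin N → Fin (M + 1) → ℝ := fun i => (s i)⁻¹ • Matrix.vecCons (t ^ i.1) (F i)
    have e : ∀ i j, G i ⬝ᵥ G j = (t ^ i.1 * t ^ j.1 + F i ⬝ᵥ F j) / (s i * s j) := fun i j => by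
      simp only [G, smul_dotProduct, dotProduct_smul, Matrix.cons_dotProduct_cons, smul_eq_mul]
      field_simp
    have b : ∀ i j, i < j → |G i ⬝ᵥ G j| ≤ (1 - d / 18) * coh F := fun i j hij => by
      rw [e, abs_div, abs_of_pos (mul_pos (s0 i) (s0 j)), div_le_iff₀ (mul_pos (s0 i) (s0 j))]
      refine key (le_coh F hij.ne) (by positivity) ?_ (by positivity) (pow_le_one₀ t0.le t1) t0.le
        (by linarith) (pow_le_pow_left₀ (by positivity) (pow_le_pow_of_le_one t0.le t1 i.2.le) 2)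
        d0.le
      rw [← pow_succ']
      exact pow_le_pow_of_le_one t0.le t1 hij
    rw [div_le_iff₀' (by linarith)]
    refine csInf_le_of_le ⟨0, by rintro _ ⟨F, -, rfl⟩; exact coh_nn F⟩ ⟨G, fun i => ?_, rfl⟩ ?_
    · rw [e, hF, div_eq_one_iff_eq (mul_pos (s0 i) (s0 i)).ne', Real.mul_self_sqrt (by positivity)]
      ring
    · refine Real.iSup_le (fun ⟨⟨i, j⟩, h⟩ => ?_) (mul_nonneg (by linarith) (coh_nn F))
      rcases lt_or_gt_of_ne h with h | h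
      · exact b i j h
      · rw [dotProduct_comm]; exact b j i h
  rw [div_le_iff₀ (by linarith)] at up
  have : 0 < mu N M := lt_of_lt_of_le (by positivity) lo
  nlinarith

end Pool.Agent.Results.MP_9149b8_co.Strict
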